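import Pool.Agent.Q188.FC.StmK

/-!
# Project FC, job FC-GC: differentiation with respect to a parameter of the function
-/

set_option autoImplicit false

open MeasureTheory Metric Set Filter Topology

namespace Pool.Agent.Q190.FC.GC

open Pool.Agent.Q188.FC
open Pool.Agent.W716.FV (E gam gd UU)

theorem int_exp {n : ℕ} {c : ℝ} (hc : 0 < c) : Integrable (fun y : E n => Real.exp (-(c * ‖y‖ ^ 2))) := by
  have h := (GaussianFourier.integrable_cexp_neg_mul_sq_norm_add (b := (c : ℂ)) (by simpa using hc) 0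
    (0 : E n)).norm
  refine h.congr (ae_of_all _ fun y => ?_)
  simp only [Complex.norm_exp]
  congr 1
  simp
  left
  norm_cast

theorem int_norm_exp {n : ℕ} {c : ℝ} (hc : 0 < c) :
    Integrable (fun y : E n => ‖y‖ * Real.exp (-(c * ‖y‖ ^ 2))) := by
  have h := (int_exp (n := n) (half_pos hc)).const_mul (1 + 2 / c)
  refine h.mono' (by fun_prop) (ae_of_all _ fun y => ?_)
  rw [Real.norm_of_nonneg (by positivity)]
  have e1 : Real.exp (-(c * ‖y‖ ^ 2)) = Real.exp (-(c / 2 * ‖y‖ ^ 2)) * Real.exp (-(c / 2 * ‖y‖ ^ 2)) := by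
    rw [← Real.exp_add]
    congr 1
    ring
  have e2 : Real.exp (c / 2 * ‖y‖ ^ 2) * Real.exp (-(c / 2 * ‖y‖ ^ 2)) = 1 := by
    rw [← Real.exp_add]
    simp
  have h1 : c / 2 * ‖y‖ ^ 2 + 1 ≤ Real.exp (c / 2 * ‖y‖ ^ 2) := Real.add_one_le_exp _
  have h2 : ‖y‖ ≤ (1 + 2 / c) * Real.exp (c / 2 * ‖y‖ ^ 2) := by
    have h3 : 0 ≤ c / 2 * ‖y‖ ^ 2 := by positivity
    have h4 : ‖y‖ ≤ 1 + ‖y‖ ^ 2 := by nlinarith [sq_nonneg (‖y‖ - 1)]
    have h5 : ‖y‖ ^ 2 ≤ 2 / c * Real.exp (c / 2 * ‖y‖ ^ 2) := by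
      rw [div_mul_eq_mul_div, le_div_iff₀ hc]
      nlinarith
    have h6 : 1 ≤ Real.exp (c / 2 * ‖y‖ ^ 2) := by linarith
    linarith
  calc ‖y‖ * Real.exp (-(c * ‖y‖ ^ 2)) =
        ‖y‖ * (Real.exp (-(c / 2 * ‖y‖ ^ 2)) * Real.exp (-(c / 2 * ‖y‖ ^ 2))) := by rw [← e1]
    _ ≤ ((1 + 2 / c) * Real.exp (c / 2 * ‖y‖ ^ 2)) *
        (Real.exp (-(c / 2 * ‖y‖ ^ 2)) * Real.exp (-(c / 2 * ‖y‖ ^ 2))) := by gcongr
    _ = (1 + 2 / c) * Real.exp (-(c / 2 * ‖y‖ ^ 2)) *
        (Real.exp (c / 2 * ‖y‖ ^ 2) * Real.exp (-(c / 2 * ‖y‖ ^ 2))) := by ring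
    _ = _ := by rw [e2, mul_one]

theorem gk_cont {n : ℕ} (p : E n) : Continuous (fun q : ℝ × E n => gk p q.1 q.2) := by
  unfold gk ww
  fun_prop

theorem gk_cont_t {n : ℕ} (p y : E n) : Continuous (fun t : ℝ => gk p t y) := by
  unfold gk ww
  fun_prop

theorem gk_cont_3 {n : ℕ} (p : E n) : Continuous (Function.uncurry fun (z : E n × ℝ) (t : ℝ) => gk p t z.1) := by
  unfold gk ww Function.uncurry
  fun_prop

theorem gk_cont_f {n : ℕ} (p : E n) {φ : E n → ℝ} (h : Continuous φ) : Continuous (fun y => gk p (φ y) y) := by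
  unfold gk ww
  fun_prop

theorem cc_le {n : ℕ} {φ : E n → ℝ} (h : Cc φ) (y : E n) : |φ y| ≤ ‖y‖ := by
  have h0 : φ 0 = 0 := by
    have := h.hom 0 0
    simpa using this
  have := h.lip y 0
  simpa [h0] using this

theorem cc_cont {n : ℕ} {φ : E n → ℝ} (h : Cc φ) : Continuous φ := by
  have : LipschitzWith 1 φ := LipschitzWith.of_dist_le_mul fun x y => by
    rw [Real.dist_eq, dist_eq_norm, NNReal.coe_one, one_mul]
    exact h.lip x y
  exact this.continuous

/-- bound for the integral between two points -/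
theorem seg_bound {n : ℕ} {p : E n} {y : E n} {B a b : ℝ} (h : ∀ t, |t| ≤ ‖y‖ → ‖gk p t y‖ ≤ B)
    (ha : |a| ≤ ‖y‖) (hb : |b| ≤ ‖y‖) : ‖∫ t in a..b, gk p t y‖ ≤ B * |b - a| := by
  apply intervalIntegral.norm_integral_le_of_norm_le_const
  intro t ht
  apply h
  have h1 := abs_le.1 ha
  have h2 := abs_le.1 hb
  rw [uIoc, mem_Ioc] at ht
  rw [abs_le]
  constructor
  · rcases min_le_iff.1 (le_refl (min a b)) with h3 | h3
    · rcases le_total a b with h4 | h4
      · rw [min_eq_left h4] at ht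
        linarith
      · rw [min_eq_right h4] at ht
        linarith
    · rcases le_total a b with h4 | h4
      · rw [min_eq_left h4] at ht
        linarith
      · rw [min_eq_right h4] at ht
        linarith
  · exact ht.2.trans (max_le h1.2 h2.2)

theorem main (_h1 : BoostAlg) (h2 : KerBound) (_h3 : KerDeriv) : GGChart := by
  intro n p hp φ hφ c₀ r K hr hK D hD hDer
  obtain ⟨c, C, hc, hC, hb⟩ := h2 n ‖p‖ hp
  have hgk : ∀ (t : ℝ) (y : E n), |t| ≤ ‖y‖ → ‖gk p t y‖ ≤ C * Real.exp (-(c * ‖y‖ ^ 2)) := fun t y ht =>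
    (hb p le_rfl t y ht).2.2.2.1
  have hcont : ∀ y : E n, Continuous fun t : ℝ => gk p t y := gk_cont_t p
  set F : E n → E n → E n := fun c y => ∫ t in (0 : ℝ)..φ c y, gk p t y with hF
  set F' : E n → E n →L[ℝ] E n := fun y => (D y).smulRight (gk p (φ c₀ y) y) with hF'
  set bound : E n → ℝ := fun y => |K| * C * (‖y‖ * Real.exp (-(c * ‖y‖ ^ 2))) with hbound
  have hFc : ∀ c : E n, Continuous (F c) := by
    intro c
    have h1 : Continuous (fun q : E n × ℝ => ∫ t in (0 : ℝ)..q.2, gk p t q.1) := by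
      apply intervalIntegral.continuous_parametric_intervalIntegral_of_continuous
      · exact gk_cont_3 p
      · exact continuous_snd
    exact h1.comp (continuous_id.prodMk (cc_cont (hφ c)))
  have hbi : Integrable bound := (int_norm_exp hc).const_mul _
  have hFi : Integrable (F c₀) := by
    refine ((int_norm_exp (n := n) hc).const_mul C).mono' (hFc c₀).aestronglyMeasurable
      (ae_of_all _ fun y => ?_)
    have h1 := seg_bound (p := p) (y := y) (a := 0) (b := φ c₀ y) (fun t ht => hgk t y ht) (by simp)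
      (cc_le (hφ c₀) y)
    refine h1.trans ?_
    rw [sub_zero]
    have h2 := cc_le (hφ c₀) y
    calc C * Real.exp (-(c * ‖y‖ ^ 2)) * |φ c₀ y| ≤ C * Real.exp (-(c * ‖y‖ ^ 2)) * ‖y‖ := by gcongr
      _ = _ := by ring
  have hF'm : AEStronglyMeasurable F' volume := by
    have h1 : Measurable (fun y => gk p (φ c₀ y) y) := (gk_cont_f p (cc_cont (hφ c₀))).measurable
    have h2 : Continuous (fun z : (E n →L[ℝ] ℝ) × E n => z.1.smulRight z.2) := by
      have := (ContinuousLinearMap.smulRightL ℝ (E n) (E n)).continuous₂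
      exact this
    exact (h2.measurable.comp (hD.prodMk h1)).aestronglyMeasurable
  have key := hasFDerivAt_integral_of_dominated_loc_of_lip' (μ := (volume : Measure (E n))) (F := F)
    (F' := F') (x₀ := c₀) (bound := bound) (s := ball c₀ r) (ball_mem_nhds c₀ hr)
    (fun c _ => (hFc c).aestronglyMeasurable) hFi hF'm ?_ hbi ?_
  · obtain ⟨k1, k2⟩ := key
    refine ⟨∫ y, F' y, ?_, ?_⟩
    · unfold GG
      exact k2.sub_const p
    · intro v
      rw [ContinuousLinearMap.integral_apply k1]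
      rfl
  · refine ae_of_all _ fun y c' hc' => ?_
    have h1 : F c' y - F c₀ y = ∫ t in (φ c₀ y)..(φ c' y), gk p t y := by
      simp only [hF]
      exact intervalIntegral.integral_interval_sub_left ((hcont y).intervalIntegrable _ _)
        ((hcont y).intervalIntegrable _ _)
    rw [h1]
    refine (seg_bound (fun t ht => hgk t y ht) (cc_le (hφ c₀) y) (cc_le (hφ c') y)).trans ?_
    have h2 := hK c' hc' y
    calc C * Real.exp (-(c * ‖y‖ ^ 2)) * |φ c' y - φ c₀ y| ≤
          C * Real.exp (-(c * ‖y‖ ^ 2)) * (|K| * ‖c' - c₀‖ * ‖y‖) := by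
          gcongr
          refine h2.trans ?_
          gcongr
          exact le_abs_self K
      _ = _ := by
          rw [hbound]
          ring
  · filter_upwards [hDer] with y hy
    have h1 : HasDerivAt (fun s => ∫ t in (0 : ℝ)..s, gk p t y) (gk p (φ c₀ y) y) (φ c₀ y) :=
      intervalIntegral.integral_hasDerivAt_right ((hcont y).intervalIntegrable _ _)
        ((hcont y).stronglyMeasurableAtFilter _ _) (hcont y).continuousAt
    have h3 : HasFDerivAt (fun c => F c y) (F' y) c₀ := by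
      have h4 := h1.hasFDerivAt.comp c₀ hy
      refine h4.congr_fderiv ?_
      ext v
      simp [hF']
    exact h3

end Pool.Agent.Q190.FC.GC
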