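import Pool.Agent.Q188.FC.StmK

/-!
# Project FC, job FC-LZ: local Lipschitz dependence of the zero
-/

set_option autoImplicit false

open MeasureTheory Metric Set Filter Topology

namespace Pool.Agent.Q190.FC.LZ

open Pool.Agent.Q188.FC
open Pool.Agent.W716.FV (E gam gd UU)

theorem main (h1 : GGDer) (h2 : GGStrict) (h3 : GGLip) (h4 : MonoF) : LocZ := by
  intro n φ₀ hφ₀ p₀ hp₀ hz
  obtain ⟨L, hL, -⟩ := h1 n φ₀ hφ₀ p₀ hp₀
  have hmono := (h4 n φ₀ hφ₀ p₀ hp₀ L hL).2 hz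
  obtain ⟨δ₀, hδ₀, -, hst⟩ := h2 n φ₀ hφ₀ p₀ hp₀ L hL (1 / 4) (by norm_num)
  set δ₁ : ℝ := min δ₀ (1 - ‖p₀‖) with hδ₁
  have hδ₁0 : 0 < δ₁ := lt_min hδ₀ (by linarith)
  have hδ₁a : δ₁ ≤ δ₀ := min_le_left _ _
  have hδ₁b : δ₁ ≤ 1 - ‖p₀‖ := min_le_right _ _
  obtain ⟨K, hK, hlip⟩ := h3 n (‖p₀‖ + δ₁ / 2) (by linarith)
  set r : ℝ := min δ₀ (δ₁ / (16 * (K + 1))) with hr
  have hr0 : 0 < r := lt_min hδ₀ (by positivity)
  have hra : r ≤ δ₀ := min_le_left _ _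
  have hrb : K * r ≤ δ₁ / 16 := by
    have h5 : r ≤ δ₁ / (16 * (K + 1)) := min_le_right _ _
    calc K * r ≤ (K + 1) * (δ₁ / (16 * (K + 1))) := by gcongr; linarith
      _ = _ := by field_simp
  -- strong monotonicity near `p₀`
  have hsm : ∀ φ : E n → ℝ, Cc φ → (∀ y, |φ y - φ₀ y| ≤ δ₀ * ‖y‖) → ∀ p ∈ ball p₀ δ₀, ∀ p' ∈ ball p₀ δ₀,
      inner ℝ (GG p φ - GG p' φ) (p - p') ≤ -(‖p - p'‖ ^ 2 / 4) := by
    intro φ hφ hcl p hp p' hp'
    have h5 := hst φ hφ hcl p hp p' hp'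
    have h6 := hmono (p - p')
    have h7 : (inner ℝ (GG p φ - GG p' φ - L (p - p')) (p - p') : ℝ) ≤ 1 / 4 * ‖p - p'‖ * ‖p - p'‖ :=
      (real_inner_le_norm _ _).trans (by gcongr)
    rw [inner_sub_left] at h7
    nlinarith
  have hn : ∀ p ∈ ball p₀ (δ₁ / 2), ‖p‖ ≤ ‖p₀‖ + δ₁ / 2 := by
    intro p hp
    rw [mem_ball, dist_eq_norm] at hp
    calc ‖p‖ = ‖p₀ + (p - p₀)‖ := by congr 1; abel
      _ ≤ ‖p₀‖ + ‖p - p₀‖ := norm_add_le _ _
      _ ≤ _ := by linarith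
  -- localisation
  have hloc : ∀ φ : E n → ℝ, Cc φ → (∀ y, |φ y - φ₀ y| ≤ r * ‖y‖) → ∀ p : E n, ‖p‖ < 1 → GG p φ = 0 →
      p ∈ ball p₀ (δ₁ / 2) := by
    intro φ hφ hcl p hp hzp
    by_contra hcon
    rw [mem_ball, dist_eq_norm, not_lt] at hcon
    have hN : 0 < ‖p - p₀‖ := lt_of_lt_of_le (by positivity) hcon
    set lam : ℝ := (δ₁ / 3) / ‖p - p₀‖ with hlam
    have hlam0 : 0 < lam := by positivity
    have hlam1 : lam ≤ 1 := by
      rw [hlam, div_le_one hN]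
      linarith
    set q : E n := p₀ + lam • (p - p₀) with hq
    have hqn : ‖q - p₀‖ = δ₁ / 3 := by
      rw [hq, add_sub_cancel_left, norm_smul, Real.norm_of_nonneg hlam0.le, hlam]
      field_simp
    -- the function on the segment
    set g : ℝ → ℝ := fun s => inner ℝ (GG (p₀ + s • (p - p₀)) φ) (p - p₀) with hg
    have hseg : ∀ s ∈ Icc (0 : ℝ) 1, ‖p₀ + s • (p - p₀)‖ < 1 := by
      intro s hs
      have h5 : p₀ + s • (p - p₀) = (1 - s) • p₀ + s • p := by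
        rw [smul_sub, sub_smul, one_smul]
        abel
      rw [h5]
      calc ‖(1 - s) • p₀ + s • p‖ ≤ ‖(1 - s) • p₀‖ + ‖s • p‖ := norm_add_le _ _
        _ = (1 - s) * ‖p₀‖ + s * ‖p‖ := by
            rw [norm_smul, norm_smul, Real.norm_of_nonneg (by linarith [hs.2]), Real.norm_of_nonneg hs.1]
        _ < 1 := by
            rcases eq_or_lt_of_le hs.1 with h6 | h6
            · rw [← h6]
              linarith
            · nlinarith [hs.2, norm_nonneg p₀]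
    have hgd : ∀ s ∈ Icc (0 : ℝ) 1, ∃ d : ℝ, HasDerivAt g d s ∧ d ≤ 0 := by
      intro s hs
      obtain ⟨Ls, hLs, -⟩ := h1 n φ hφ (p₀ + s • (p - p₀)) (hseg s hs)
      refine ⟨inner ℝ (Ls (p - p₀)) (p - p₀), ?_, (h4 n φ hφ _ (hseg s hs) Ls hLs).1 (p - p₀)⟩
      have h5 : HasDerivAt (fun s : ℝ => p₀ + s • (p - p₀)) (p - p₀) s := by
        have := ((hasDerivAt_id s).smul_const (p - p₀)).const_add p₀
        simpa using this
      have h6 : HasDerivAt (fun s : ℝ => GG (p₀ + s • (p - p₀)) φ) (Ls (p - p₀)) s :=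
        HasFDerivAt.comp_hasDerivAt (l := fun p' => GG p' φ) (f := fun s : ℝ => p₀ + s • (p - p₀)) s hLs h5
      have h7 := h6.inner ℝ (hasDerivAt_const s (p - p₀))
      simpa using h7
    have hanti : AntitoneOn g (Icc 0 1) := by
      apply antitoneOn_of_deriv_nonpos (convex_Icc 0 1)
      · intro s hs
        obtain ⟨d, hd, -⟩ := hgd s hs
        exact hd.continuousAt.continuousWithinAt
      · intro s hs
        rw [interior_Icc] at hs
        obtain ⟨d, hd, -⟩ := hgd s (Ioo_subset_Icc_self hs)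
        exact hd.differentiableAt.differentiableWithinAt
      · intro s hs
        rw [interior_Icc] at hs
        obtain ⟨d, hd, hd0⟩ := hgd s (Ioo_subset_Icc_self hs)
        rw [hd.deriv]
        exact hd0
    have hg1 : g 1 = 0 := by
      simp only [hg, one_smul, add_sub_cancel]
      rw [hzp, inner_zero_left]
    have hglam : 0 ≤ g lam := by
      rw [← hg1]
      exact hanti ⟨hlam0.le, hlam1⟩ ⟨zero_le_one, le_rfl⟩ hlam1
    have hqq : q - p₀ = lam • (p - p₀) := by rw [hq, add_sub_cancel_left]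
    have hpos : 0 ≤ (inner ℝ (GG q φ) (q - p₀) : ℝ) := by
      rw [hqq, inner_smul_right]
      exact mul_nonneg hlam0.le hglam
    have hqb : q ∈ ball p₀ (δ₁ / 2) := by
      rw [mem_ball, dist_eq_norm, hqn]
      linarith
    have hqb' : q ∈ ball p₀ δ₀ := ball_subset_ball (by linarith) hqb
    have h8 := hsm φ₀ hφ₀ (fun y => by simp; positivity) q hqb' p₀ (mem_ball_self hδ₀)
    rw [hz, sub_zero] at h8
    have h9 := hlip q (hn q hqb) φ φ₀ hφ hφ₀ r hr0.le hcl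
    have h10 : (inner ℝ (GG q φ - GG q φ₀) (q - p₀) : ℝ) ≤ K * r * ‖q - p₀‖ :=
      (real_inner_le_norm _ _).trans (by gcongr)
    rw [inner_sub_left] at h10
    rw [hqn] at h8 h10
    nlinarith
  refine ⟨r, 4 * K, hr0, by positivity, ?_⟩
  intro φ φ' hφ hφ' hcl hcl' p p' hp hp' hzp hzp' δ hδ hd
  have hpb := hloc φ hφ hcl p hp hzp
  have hpb' := hloc φ' hφ' hcl' p' hp' hzp'
  have hcl2 : ∀ y, |φ y - φ₀ y| ≤ δ₀ * ‖y‖ := fun y => (hcl y).trans (by gcongr)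
  have h5 := hsm φ hφ hcl2 p (ball_subset_ball (by linarith) hpb) p' (ball_subset_ball (by linarith) hpb')
  have h6 := hlip p' (hn p' hpb') φ φ' hφ hφ' δ hδ hd
  rw [hzp, zero_sub, inner_neg_left] at h5
  rw [hzp', sub_zero] at h6
  have h7 : -(inner ℝ (GG p' φ) (p - p') : ℝ) ≥ -(K * δ * ‖p - p'‖) := by
    have := real_inner_le_norm (GG p' φ) (p - p')
    have h8 : ‖GG p' φ‖ * ‖p - p'‖ ≤ K * δ * ‖p - p'‖ := by gcongr
    linarith
  have h8 : ‖p - p'‖ ^ 2 / 4 ≤ K * δ * ‖p - p'‖ := by linarith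
  rcases eq_or_lt_of_le (norm_nonneg (p - p')) with h9 | h9
  · rw [← h9]
    positivity
  · have h10 : ‖p - p'‖ * ‖p - p'‖ ≤ (4 * K * δ) * ‖p - p'‖ := by nlinarith
    exact le_of_mul_le_mul_right h10 h9

end Pool.Agent.Q190.FC.LZ
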